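import Pool.Agent.Q26.PD.LG
import Pool.Agent.W93.PG7

/-!
# Common primes of primorial intervals in the Goldbach representations of several numbers, for all the numbers of
short intervals

`s` numbers of the `n + 1`-st primorial interval are each changed by very few elements of arbitrary sets which meet
every interval `[x, l x]`; then for ALL the `s`-tuples `m` of integers of the intervals of length `log ^ R` around the
new numbers which belong to the `n + 1`-st primorial interval and are admissible, there are primes `p` of the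
`n`-th primorial interval such that ALL the `m i - p` are primes of the `n`-th or of the `n + 1`-st primorial interval;
moreover their number in all windows of length at least `#(n+1) / log ^ A #(n+1)` is as predicted by Hardy and
Littlewood.

Definitions used (in `Pool.Agent.Q26.PD.LG`): `cnt m y₁ y₂`: the number of the primes `p` in `(y₁, y₂]` such that all
`m i - p` are primes; `nu m q`: the number of different residues of `0, m_1, ..., m_s` modulo `q`; `Adm m`:
`nu m q < q` for all primes `q` (for `s = 1`: the number is even, `adm_one`); `sing m z`: the product of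
`(1 - nu m q / q) / (1 - 1 / q) ^ (s + 1)` over the primes `q ≤ z`.
-/

set_option autoImplicit false

namespace Pool.Agent.Results.MP_484fb8_nt.CommonPrimesAllWindows

open Finset Pool.Agent.Q26.PD.LG

/-- `#(n)`: the product of the first `n` primes. -/
noncomputable def P (n : ℕ) : ℕ := ∏ i ∈ range n, Nat.nth Nat.Prime i

/-- `p` is a prime of the `n`-th primorial interval such that all `m i - p` are primes which belong to the `n`-th or
to the `n + 1`-st primorial interval. -/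
def Rep {s : ℕ} (n : ℕ) (m : Fin s → ℕ) (p : ℕ) : Prop :=
  p.Prime ∧ P (n - 1) + 1 ≤ p ∧ p ≤ P n + 1 ∧ ∀ i, (m i - p).Prime ∧ P (n - 1) + 1 ≤ m i - p ∧ m i - p ≤ P (n + 1) + 1

open Classical in
/-- The number of these primes in the window `(y₁, y₂]`. -/
noncomputable def reps {s : ℕ} (n : ℕ) (m : Fin s → ℕ) (y₁ y₂ : ℕ) : ℕ := ((Ioc y₁ y₂).filter (Rep n m)).card

/-- If the numbers `m i` belong to the `n + 1`-st primorial interval and if there is no local obstruction, then there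
is a common prime `p` as required; moreover the singular series converges to some `G > 0`, and the number of these `p`
in all windows `(y₁, y₂]` inside the `n`-th primorial interval of length at least `#(n+1) / log ^ A #(n+1)` (such that
the `m i - p` cannot be too small) is as predicted up to a relative error of at most `ε`. -/
def Holds {s : ℕ} (ε : ℝ) (A n : ℕ) (m : Fin s → ℕ) : Prop :=
  (∀ i, P n + 1 ≤ m i ∧ m i ≤ P (n + 1) + 1) → Adm m →
    (∃ p, Rep n m p) ∧
    ∃ G : ℝ, 0 < G ∧ Filter.Tendsto (sing m) Filter.atTop (nhds G) ∧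
      ∀ y₁ y₂ : ℕ, P (n - 1) ≤ y₁ → y₂ ≤ P n → (∀ i, y₂ + P (n - 1) < m i) →
        (P (n + 1) : ℝ) / Real.log (P (n + 1)) ^ A ≤ (y₂ : ℝ) - y₁ →
        |(reps n m y₁ y₂ : ℝ) - G * (((y₂ : ℝ) - y₁) / Real.log (P (n + 1)) ^ (s + 1))| ≤
          ε * (G * (((y₂ : ℝ) - y₁) / Real.log (P (n + 1)) ^ (s + 1)))

lemma reps_eq {s : ℕ} (n : ℕ) (m : Fin s → ℕ) (y₁ y₂ : ℕ) (h1 : P (n - 1) ≤ y₁) (h2 : y₂ ≤ P n)
    (h3 : ∀ i, y₂ + P (n - 1) < m i) (h4 : ∀ i, m i ≤ P (n + 1) + 1) : reps n m y₁ y₂ = cnt m y₁ y₂ := by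
  classical
  unfold reps cnt
  congr 1
  ext p
  rw [mem_filter, mem_filter, mem_Ioc]
  unfold Rep
  constructor
  · rintro ⟨h5, h6, _, _, h7⟩
    exact ⟨h5, h6, fun i => (h7 i).1⟩
  · rintro ⟨h5, h6, h7⟩
    refine ⟨h5, h6, by omega, by omega, fun i => ⟨h7 i, ?_, ?_⟩⟩
    · have := h3 i
      omega
    · have := h4 i
      omega

lemma holds_of (s A : ℕ) (hA : 2 ≤ A) (ε : ℝ) : ∃ n₀ : ℕ, ∀ n : ℕ, n₀ ≤ n → ∀ m : Fin s → ℕ,
    Formula (min ε (1 / 2)) A (P (n + 1)) m → Holds ε A n m := by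
  classical
  obtain ⟨n1, h1⟩ := Pool.Agent.W93.PG.next_prime
  obtain ⟨N2, h2⟩ := Pool.Agent.H373R2.T7.ev_L' 20
  refine ⟨n1 + N2 + 10, fun n hn m hF hm hadm => ?_⟩
  have hPP : ∀ k, Pool.Agent.W93.PG.PR k = P k := fun _ => rfl
  have hpos : ∀ k, 0 < P k := Pool.Agent.W93.PG.PR_pos
  have hsucc : ∀ k, P (k + 1) = P k * Nat.nth Nat.Prime k := Pool.Agent.W93.PG.PR_succ
  have hge : ∀ k, k + 2 ≤ Nat.nth Nat.Prime k := Nat.add_two_le_nth_prime
  have hPn : P n = P (n - 1) * Nat.nth Nat.Prime (n - 1) := by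
    have := hsucc (n - 1)
    rwa [show n - 1 + 1 = n by omega] at this
  have hq1 : 10 ≤ Nat.nth Nat.Prime (n - 1) := by have := hge (n - 1); omega
  have hp0 := hpos (n - 1)
  have h8 : 10 * P (n - 1) ≤ P n := by rw [hPn, mul_comm]; exact Nat.mul_le_mul_left _ hq1
  have hnP : n + 2 ≤ P (n + 1) := by
    rw [hsucc]
    calc n + 2 ≤ Nat.nth Nat.Prime n := hge n
      _ ≤ P n * Nat.nth Nat.Prime n := Nat.le_mul_of_pos_left _ (hpos n)
  have hL := h2 (P (n + 1)) (by omega)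
  obtain ⟨L, hLd⟩ : ∃ L, L = Real.log (P (n + 1)) := ⟨_, rfl⟩
  rw [← hLd] at hL
  obtain ⟨G, hG, hlim, hwin⟩ := hF hadm
  have hmle : P n ≤ P (n + 1) := by
    rw [hsucc]
    exact Nat.le_mul_of_pos_right _ (by have := hge n; omega)
  have key : ∀ y₁ y₂ : ℕ, P (n - 1) ≤ y₁ → y₂ ≤ P n → (∀ i, y₂ + P (n - 1) < m i) →
        (P (n + 1) : ℝ) / Real.log (P (n + 1)) ^ A ≤ (y₂ : ℝ) - y₁ →
        |(reps n m y₁ y₂ : ℝ) - G * (((y₂ : ℝ) - y₁) / Real.log (P (n + 1)) ^ (s + 1))| ≤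
          (min ε (1 / 2)) * (G * (((y₂ : ℝ) - y₁) / Real.log (P (n + 1)) ^ (s + 1))) := by
    intro y₁ y₂ a1 a2 a3 a4
    rw [reps_eq n m y₁ y₂ a1 a2 a3 (fun i => (hm i).2)]
    exact hwin y₁ y₂ (a2.trans hmle) (fun i => by have := a3 i; omega) a4
  have hmain : ∀ y₁ y₂ : ℕ, (P (n + 1) : ℝ) / Real.log (P (n + 1)) ^ A ≤ (y₂ : ℝ) - y₁ →
      0 < G * (((y₂ : ℝ) - y₁) / Real.log (P (n + 1)) ^ (s + 1)) := by
    intro y₁ y₂ a4
    have hP0 : (0 : ℝ) < P (n + 1) := by exact_mod_cast hpos _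
    rw [← hLd] at a4 ⊢
    have : 0 < (P (n + 1) : ℝ) / L ^ A := by positivity
    have : 0 < (y₂ : ℝ) - y₁ := by linarith
    positivity
  refine ⟨?_, G, hG, hlim, fun y₁ y₂ a1 a2 a3 a4 => (key y₁ y₂ a1 a2 a3 a4).trans
    (mul_le_mul_of_nonneg_right (min_le_left _ _) (hmain y₁ y₂ a4).le)⟩
  have hlen : (P (n + 1) : ℝ) / Real.log (P (n + 1)) ^ A ≤ ((P n / 2 : ℕ) : ℝ) - (P (n - 1) : ℕ) := by
    have b1 : (Nat.nth Nat.Prime n : ℝ) ≤ 4 * Real.log (P n) + 1 := h1 n (by omega)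
    have b2 : Real.log (P n) ≤ L := by
      rw [hLd]
      exact Real.log_le_log (by exact_mod_cast hpos n) (by exact_mod_cast hmle)
    have b3 : (P (n + 1) : ℝ) = P n * Nat.nth Nat.Prime n := by
      rw [hsucc]; push_cast; rfl
    have b4 : (P n : ℝ) / 4 ≤ ((P n / 2 : ℕ) : ℝ) - (P (n - 1) : ℕ) := by
      have c1 : (P n : ℝ) ≤ 2 * ((P n / 2 : ℕ) : ℝ) + 1 := by exact_mod_cast (by omega : P n ≤ 2 * (P n / 2) + 1)
      have c2 : (10 : ℝ) * (P (n - 1) : ℕ) ≤ P n := by exact_mod_cast h8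
      have c3 : (1 : ℝ) ≤ (P (n - 1) : ℕ) := by exact_mod_cast hp0
      linarith
    have b5 : (P (n + 1) : ℝ) / L ^ A ≤ P n / 4 := by
      have c1 : L ^ 2 ≤ L ^ A := pow_le_pow_right₀ (by linarith) hA
      have c2 : (0 : ℝ) < P n := by exact_mod_cast hpos n
      rw [div_le_div_iff₀ (by positivity) (by norm_num), b3]
      have c3 : (Nat.nth Nat.Prime n : ℝ) * 4 ≤ L ^ A := by nlinarith
      calc (P n : ℝ) * Nat.nth Nat.Prime n * 4 = P n * (Nat.nth Nat.Prime n * 4) := by ring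
        _ ≤ P n * L ^ A := mul_le_mul_of_nonneg_left c3 c2.le
    rw [← hLd]
    linarith
  have hex := key (P (n - 1)) (P n / 2) le_rfl (Nat.div_le_self _ _) (fun i => by
    have := (hm i).1
    omega) hlen
  have h7 : (0 : ℝ) < reps n m (P (n - 1)) (P n / 2) := by
    have c1 := hmain (P (n - 1)) (P n / 2) hlen
    have c2 := mul_le_mul_of_nonneg_right (min_le_right ε (1 / 2)) c1.le
    rw [abs_le] at hex
    linarith [hex.1]
  have h9 : 0 < reps n m (P (n - 1)) (P n / 2) := by exact_mod_cast h7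
  unfold reps at h9
  rw [card_pos] at h9
  obtain ⟨p, hp⟩ := h9
  exact ⟨p, (mem_filter.1 hp).2⟩

/-- For all `s ≥ 1`, `l ≥ 2`, `A ≥ 2` and `R` there is a constant `C` such that for all `H` and `ε > 0` there is an
`n₀` with the following property. Let `T i` (`i ≤ s`) be arbitrary sets of integers which contain an element of every
interval `[x, l x]`, `x ≥ 1` (the constants do not depend on them), let `n ≥ n₀` and `L = log #(n+1)`. To arbitrary
integers `a_1, ..., a_s ≤ #(n+1)` one can add the sums of sets `S i` of at most `C (log L) ^ 2` elements of `T i`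
between `L ^ H` and `#(n+1) / L ^ H`, in such a way that ALL the tuples `m` of integers with
`|m i - (a i + ∑ S i)| ≤ L ^ R` for all `i` have distinct components and satisfy `Holds`: if the `m i` belong to the
`n + 1`-st primorial interval and there is no local obstruction, then the problem can be solved for all the `m i` with
the same prime `p` of the `n`-th primorial interval, and the number of these `p` is as predicted in all windows. -/
theorem result (s l A R : ℕ) (hs : 1 ≤ s) (hl : 2 ≤ l) (hA : 2 ≤ A) : ∃ C : ℝ, ∀ (H : ℕ) (ε : ℝ), 0 < ε →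
    ∃ n₀ : ℕ, ∀ T : Fin s → Set ℕ, (∀ i, ∀ x : ℕ, 1 ≤ x → ∃ t ∈ T i, x ≤ t ∧ t ≤ l * x) →
      ∀ n : ℕ, n₀ ≤ n → ∀ a : Fin s → ℕ, (∀ i, a i ≤ P (n + 1)) →
      ∃ S : Fin s → Finset ℕ,
        (∀ i, ∀ x ∈ S i, x ∈ T i ∧ Real.log (P (n + 1)) ^ H ≤ x ∧ (x : ℝ) ≤ P (n + 1) / Real.log (P (n + 1)) ^ H) ∧
        (∀ i, ((S i).card : ℝ) ≤ C * Real.log (Real.log (P (n + 1))) ^ 2) ∧
        ∀ m : Fin s → ℕ, (∀ i, |(m i : ℝ) - ((a i + ∑ x ∈ S i, x : ℕ) : ℝ)| ≤ Real.log (P (n + 1)) ^ R) →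
          (∀ i j, i ≠ j → m i ≠ m j) ∧ Holds ε A n m := by
  obtain ⟨C, hC⟩ := las s l 1 A R hs hl le_rfl
  refine ⟨C, fun H ε hε => ?_⟩
  obtain ⟨n1, h1⟩ := holds_of s A hA ε
  obtain ⟨X₀, h0⟩ := hC H 1 (min ε (1 / 2)) (lt_min hε (by norm_num))
  refine ⟨n1 + X₀, fun T hT n hn a ha => ?_⟩
  have hnP : n + 2 ≤ P (n + 1) := by
    have hsucc : P (n + 1) = P n * Nat.nth Nat.Prime n := Pool.Agent.W93.PG.PR_succ n
    have hpos : 0 < P n := Pool.Agent.W93.PG.PR_pos n
    rw [hsucc]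
    calc n + 2 ≤ Nat.nth Nat.Prime n := Nat.add_two_le_nth_prime n
      _ ≤ P n * Nat.nth Nat.Prime n := Nat.le_mul_of_pos_left _ hpos
  obtain ⟨S, g1, g2, _, g3⟩ := h0 T hT (P (n + 1)) (by omega) a (fun i => by rw [one_mul]; exact ha i)
  refine ⟨S, g1, g2, fun m hm => ⟨(g3 m hm).1, h1 n (by omega) m (g3 m hm).2⟩⟩

end Pool.Agent.Results.MP_484fb8_nt.CommonPrimesAllWindows
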