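import Pool.Agent.TH935.GF
import Pool.Agent.W93.PG7
import Pool.Agent.W93.GB1
import Pool.Agent.Q56.TF.Typ
import Pool.Agent.Q56.TF.Ord
import Pool.Agent.Q56.TF.Mul

/-!
# Goldbach representations in primorial intervals, for all even multiples of all integers in windows around real
sequences

The integers `q` are all the positive integers at a distance of at most `log ^ A N` from `r m`, for almost all
`m ≤ x`, where `r 1, ..., r x` is an arbitrary family of real numbers of nearly minimal energy; for instance the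
(real) values `β + κ₀ f m` of a polynomial `f` with integer coefficients, with arbitrary real `κ₀ ≠ 0` and `β`, or of
a generalised polynomial `f t = ∑ w_y t ^ y` whose largest exponent is greater than `1` and not an integer
(`f t = t ^ c`: the sequences of Piatetski-Shapiro). The problem is settled, in a quantitative form, for ALL the even
multiples `n ≤ q log ^ κ q` of these `q`, in particular for all the even integers of the windows.

From Mathlib: `Nat.nth Nat.Prime i`: the `i + 1`-st prime; `n.primeFactors`: the set of the prime divisors of `n`;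
`Polynomial ℤ`, `f.eval m`: polynomials and their values.
The asymptotic formula in short intervals for families of integers is from the starting files
(`Pool.Agent.TH935.GF.fam_win`), as is the passage to primorial intervals (`Pool.Agent.W93.PG.reps_of_win`).
-/

set_option autoImplicit false

namespace Pool.Agent.Results.MP_484fb8_nt.EvensNearRealSequences

open Finset

open Classical in
/-- The energy of order `p` of the family of real numbers `r 1, ..., r x`: the number of the pairs `v`, `w` of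
`p`-tuples of elements of `{1, ..., x}` such that `r (v 1) + ... + r (v p)` and `r (w 1) + ... + r (w p)` differ
by at most `1`. -/
noncomputable def energy (p x : ℕ) (r : ℕ → ℝ) : ℕ :=
  (((Fintype.piFinset fun _ : Fin p => Icc 1 x) ×ˢ (Fintype.piFinset fun _ : Fin p => Icc 1 x)).filter
    (fun q => |∑ i, r (q.1 i) - ∑ i, r (q.2 i)| ≤ 1)).card

/-- The twin prime constant `C₂ = ∏_{p > 2} (1 - 1 / (p - 1) ^ 2)`: the infimum of the decreasing partial products
over the primes `3 ≤ p ≤ z`. -/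
noncomputable def C₂ : ℝ := ⨅ z : ℕ, ∏ p ∈ (Icc 3 z).filter Nat.Prime, (1 - 1 / ((p : ℝ) - 1) ^ 2)

/-- The singular series `2 C₂ ∏_{p ∣ n, p > 2} (p - 1) / (p - 2)`. -/
noncomputable def sing (n : ℕ) : ℝ :=
  2 * C₂ * ∏ p ∈ n.primeFactors.filter (fun p => 2 < p), ((p : ℝ) - 1) / ((p : ℝ) - 2)

/-- `#(n)`: the product of the first `n` primes. -/
noncomputable def P (n : ℕ) : ℕ := ∏ i ∈ range n, Nat.nth Nat.Prime i

/-- The number of primes `p` in the `n`-th primorial interval such that `m - p` is a prime which lies in the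
`n`-th or in the `n + 1`-st primorial interval. -/
noncomputable def R (n m : ℕ) : ℕ :=
  ((Icc (P (n - 1) + 1) (P n + 1)).filter
    (fun p => p.Prime ∧ (m - p).Prime ∧ P (n - 1) + 1 ≤ m - p ∧ m - p ≤ P (n + 1) + 1)).card

/-- If `m` belongs to the `n + 1`-st primorial interval (`n ≥ 1`), then `m = p + q` where `p` is a prime in the
`n`-th primorial interval and `q` is a prime in the `n`-th or in the `n + 1`-st one; moreover, up to a relative
error of at most `ε`, the number of these representations is `sing m * #(n) / log ^ 2 m`. -/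
def Good (ε : ℝ) (m : ℕ) : Prop :=
  ∀ n : ℕ, 1 ≤ n → P n + 1 ≤ m → m ≤ P (n + 1) + 1 →
    (∃ p q : ℕ, p.Prime ∧ q.Prime ∧ m = p + q ∧ P (n - 1) + 1 ≤ p ∧ p ≤ P n + 1 ∧ P (n - 1) + 1 ≤ q ∧
      q ≤ P (n + 1) + 1) ∧
    |(R n m : ℝ) - sing m * P n / Real.log m ^ 2| ≤ ε * (sing m * P n / Real.log m ^ 2)

/-- All even multiples `n` of `q` with `0 < n ≤ q log ^ κ q` are good; for `q ≥ 3` and `κ ≥ 1` this includes `q` itself
if `q` is even. -/
def Regular (ε : ℝ) (κ q : ℕ) : Prop :=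
  ∀ n : ℕ, 0 < n → Even n → q ∣ n → (n : ℝ) ≤ q * Real.log q ^ κ → Good ε n

open Classical in
/-- The number of the `m` in `{1, ..., x}` for which not all positive integers `q` at a distance of at most `w` from
`r m` have the property `G`. -/
noncomputable def exceptions (x : ℕ) (r : ℕ → ℝ) (w : ℝ) (G : ℕ → Prop) : ℕ :=
  ((Icc 1 x).filter (fun m => ∃ q : ℕ, 0 < q ∧ |(q : ℝ) - r m| ≤ w ∧ ¬ G q)).card

/-- The bound at scale `N` for the windows around the `r m`, `m ≤ x`: for all `m ≤ x` with at most `x / log ^ U N`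
exceptions all positive integers `q` with `|q - r m| ≤ log ^ A N` are regular. -/
def Holds (ε : ℝ) (A κ U N x : ℕ) (r : ℕ → ℝ) : Prop :=
  (exceptions x r (Real.log N ^ A) (Regular ε κ) : ℝ) ≤ x / Real.log N ^ U

/-- The sequence `f`, of growth `x ^ e`, has the property at all large scales: for all `x` with
`N / log ^ C N ≤ x ^ e ≤ B N` and all translates `β + f m`, `|β| ≤ B N`. -/
def Sequence (ε : ℝ) (A B C κ U : ℕ) (f : ℕ → ℝ) (e : ℝ) : Prop :=
  ∃ N₀ : ℕ, ∀ N : ℕ, N₀ ≤ N → ∀ x : ℕ, (x : ℝ) ^ e ≤ B * N → (N : ℝ) ≤ Real.log N ^ C * (x : ℝ) ^ e →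
    ∀ β : ℝ, |β| ≤ B * N → Holds ε A κ U N x (fun m => β + f m)

lemma good_of (ε : ℝ) (hε : 0 < ε) : ∃ m₀ : ℕ, ∀ m : ℕ, m₀ ≤ m →
    Pool.Agent.W93.PG.WinP (min ε (1 / 2) / 4) 2 m → Good ε m := by
  obtain ⟨m₀, h0⟩ := Pool.Agent.W93.PG.reps_of_win (min ε (1 / 2)) (lt_min hε (by norm_num))
    ((min_le_right _ _).trans (by norm_num))
  refine ⟨m₀ + 3, ?_⟩
  intro m hm hwin n hn h2 h3
  have h4 := h0 m (by omega) hwin n hn h2 h3
  have hm0 : (3 : ℝ) ≤ m := by exact_mod_cast (by omega : 3 ≤ m)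
  have hlog : 0 < Real.log m := Real.log_pos (by linarith)
  have hs : 1 ≤ sing m := Pool.Agent.W93.GB.one_le_sing m
  have hP : (0 : ℝ) < P n := by exact_mod_cast Pool.Agent.W93.PG.PR_pos n
  have hmain : 0 < sing m * P n / Real.log m ^ 2 := by positivity
  have hR : R n m = Pool.Agent.W93.PG.reps n m := rfl
  have hPR : Pool.Agent.W93.PG.PR n = P n := rfl
  have hsing : Pool.Agent.H560R3.GB.sing m = sing m := rfl
  rw [← hR, hPR, hsing] at h4
  have h5 : |(R n m : ℝ) - sing m * P n / Real.log m ^ 2| ≤ ε * (sing m * P n / Real.log m ^ 2) :=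
    h4.trans (mul_le_mul_of_nonneg_right (min_le_left _ _) hmain.le)
  have h6 : |(R n m : ℝ) - sing m * P n / Real.log m ^ 2| ≤ 1 / 2 * (sing m * P n / Real.log m ^ 2) :=
    h4.trans (mul_le_mul_of_nonneg_right (min_le_right _ _) hmain.le)
  refine ⟨?_, h5⟩
  have h7 : (0 : ℝ) < R n m := by
    rw [abs_le] at h6
    linarith [h6.1]
  have h8 : 0 < R n m := by exact_mod_cast h7
  unfold R at h8
  rw [card_pos] at h8
  obtain ⟨p, hp⟩ := h8
  rw [mem_filter, mem_Icc] at hp
  obtain ⟨⟨p1, p2⟩, p3, p4, p5, p6⟩ := hp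
  exact ⟨p, m - p, p3, p4, by have := p4.pos; omega, p1, p2, p5, p6⟩

/-- families of integers: few members have a bad even multiple -/
lemma general (p κ : ℕ) (hp : 1 ≤ p) (ε : ℝ) (hε : 0 < ε) (B C U : ℕ) :
    ∃ N₀ : ℕ, ∀ N : ℕ, N₀ ≤ N → ∀ (ι : Type) [Fintype ι] (v : ι → ℤ), (∀ i, |v i| ≤ B * N) →
      (Pool.Agent.TH935.GF.En p v : ℝ) * N ≤ Real.log N ^ C * (Fintype.card ι : ℝ) ^ (2 * p) →
      ∀ S : Finset ι, (∀ i ∈ S, 0 < v i ∧ ¬ Regular ε κ (v i).toNat) →
      (S.card : ℝ) ≤ Fintype.card ι / Real.log N ^ U := by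
  classical
  obtain ⟨m₀, h1⟩ := good_of ε hε
  obtain ⟨N₁, h2⟩ := Pool.Agent.Q56.TF.multiples p (2 * κ) (fun c : ℤ => 0 < c ∧ Even c ∧ ¬ Good ε c.toNat)
    (fun B C U => Pool.Agent.TH935.GF.transfer p B C U (Good ε)
      (fun B C U => Pool.Agent.TH935.GF.fam_win p B C 2 U m₀ hp (min ε (1 / 2) / 4)
        (div_pos (lt_min hε (by norm_num)) (by norm_num)) (Good ε) (fun m hm _ hw => h1 m hm hw))) B C U
  obtain ⟨n3, h3⟩ := Pool.Agent.H373R2.T7.ev_L' 2
  refine ⟨N₁ + n3 + B + 1, fun N hN ι _ v hv hE S hS => ?_⟩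
  refine h2 N (by omega) ι v (fun i => (le_abs_self _).trans (hv i)) hE S ?_
  intro i hi
  obtain ⟨hpos, hreg⟩ := hS i hi
  obtain ⟨q, hq⟩ : ∃ q : ℕ, q = (v i).toNat := ⟨_, rfl⟩
  have hqv : (q : ℤ) = v i := by
    rw [hq]
    exact Int.toNat_of_nonneg hpos.le
  rw [← hq] at hreg
  have hq0 : 0 < q := by
    have : (0 : ℤ) < q := by rw [hqv]; exact hpos
    exact_mod_cast this
  have h4 : ¬ ∀ n : ℕ, 0 < n → Even n → q ∣ n → (n : ℝ) ≤ q * Real.log q ^ κ → Good ε n := hreg
  push Not at h4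
  obtain ⟨n, hn0, hne, ⟨l, hl⟩, hnq, hgood⟩ := h4
  have hl1 : 1 ≤ l := by
    rcases Nat.eq_zero_or_pos l with h | h
    · rw [h] at hl
      omega
    · exact h
  have hqr : (0 : ℝ) < q := by exact_mod_cast hq0
  have hlk : (l : ℝ) ≤ Real.log q ^ κ := by
    rw [hl] at hnq
    push_cast at hnq
    exact le_of_mul_le_mul_left hnq hqr
  have hN0 : (0 : ℝ) < N := by exact_mod_cast (by omega : 0 < N)
  have hqN : (q : ℝ) ≤ (N : ℝ) * N := by
    have h5 := (le_abs_self _).trans (hv i)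
    rw [← hqv] at h5
    have h6 : q ≤ B * N := by exact_mod_cast h5
    have h7 : B * N ≤ N * N := Nat.mul_le_mul_right _ (by omega)
    exact_mod_cast h6.trans h7
  have hL2 : 2 ≤ Real.log (N : ℝ) := h3 N (by omega)
  have hlogq : Real.log q ≤ Real.log N ^ 2 := by
    calc Real.log q ≤ Real.log ((N : ℝ) * N) := Real.log_le_log hqr hqN
      _ = Real.log N + Real.log N := Real.log_mul hN0.ne' hN0.ne'
      _ ≤ Real.log N ^ 2 := by nlinarith
  have hlogq0 : 0 ≤ Real.log q := Real.log_nonneg (by exact_mod_cast hq0)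
  refine ⟨l, hl1, ?_, ?_⟩
  · calc (l : ℝ) ≤ Real.log q ^ κ := hlk
      _ ≤ (Real.log N ^ 2) ^ κ := pow_le_pow_left₀ hlogq0 hlogq _
      _ = Real.log N ^ (2 * κ) := by rw [← pow_mul]
  · have e : (l : ℤ) * v i = ((n : ℕ) : ℤ) := by
      rw [hl, ← hqv]
      push_cast
      ring
    rw [e]
    refine ⟨by exact_mod_cast hn0, by exact_mod_cast hne, ?_⟩
    simpa using hgood

lemma holds_of (A B κ U p C : ℕ) (hp : 1 ≤ p) (ε : ℝ) (hε : 0 < ε) :
    ∃ N₀ : ℕ, ∀ N : ℕ, N₀ ≤ N → ∀ (x : ℕ) (r : ℕ → ℝ), Pool.Agent.Q56.TF.Near A p B C N x r →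
      Holds ε A κ U N x r := by
  classical
  obtain ⟨N₁, h1⟩ := general p κ hp ε hε B C U
  refine ⟨N₁, fun N hN x r hm => ?_⟩
  refine Pool.Agent.Q56.TF.near_types hm (Q := fun c => 0 < c ∧ ¬ Regular ε κ c.toNat)
    (fun ι _ v hv hE S hS => h1 N hN ι v hv hE S hS) _ (filter_subset _ _) ?_
  intro m hm
  obtain ⟨_, q, hq0, hq2, hq3⟩ := mem_filter.1 hm
  exact ⟨q, by exact_mod_cast hq2, by exact_mod_cast hq0, by simpa using hq3⟩

lemma sequence_of {f : ℕ → ℝ} {e : ℝ} (h : Pool.Agent.Q56.TF.Base f e) (he : 1 ≤ e) (A B C κ U : ℕ) (ε : ℝ)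
    (hε : 0 < ε) : Sequence ε A B C κ U f e := by
  obtain ⟨p, B', C', N₀, h1⟩ := Pool.Agent.Q56.TF.near_base h he A B C
  obtain ⟨N₁, h2⟩ := holds_of A B' κ U (p + 1) C' (by omega) ε hε
  exact ⟨N₀ + N₁, fun N hN x hx1 hx2 β hβ =>
    h2 N (by omega) x _ ((h1 N (by omega) x hx1 hx2 β hβ).order (by omega))⟩

/-- Let `A`, `B`, `C`, `κ`, `U` and `ε > 0` be fixed.

* For every `p` the following holds for all large `N`. Let `r 1, ..., r x` be an arbitrary family of real numbers in
  `[-B N, B N]` with an energy of order `p` of at most `log ^ C N` times `x ^ (2 p) / N` (the minimal possible order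
  of magnitude). For all `m ≤ x` with at most `x / log ^ U N` exceptions, ALL even multiples `n`, with
  `0 < n ≤ q log ^ κ q`, of ALL integers `q ≥ 1` with `|q - r m| ≤ log ^ A N` satisfy the assertion of the problem:
  if `n` belongs to the `k + 1`-st primorial interval then it is the sum of a prime of the `k`-th primorial interval
  and of a prime of the `k`-th or of the `k + 1`-st one, and the number of these representations is
  `𝔖(n) #(k) / log ^ 2 n` up to a relative error of at most `ε`.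
* This holds for `r m = β + κ₀ f m`, `m ≤ x`, where `f` is a fixed nonconstant polynomial with integer
  coefficients, of degree `d`, `κ₀ ≠ 0` is a fixed real number, `β` is any real number with `|β| ≤ B N`, and
  `N / log ^ C N ≤ x ^ d ≤ B N`.
* This holds for `r m = β + ∑ w_y m ^ y` (a sum over a finite set `F` of real exponents `y`), if the largest
  exponent `e` is greater than `1` and not an integer, `w_e ≠ 0`, `|β| ≤ B N` and `N / log ^ C N ≤ x ^ e ≤ B N`; for
  instance for `r m = β + m ^ e`. -/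
theorem result (A B C κ U : ℕ) (ε : ℝ) (hε : 0 < ε) :
    (∀ p : ℕ, ∃ N₀ : ℕ, ∀ N : ℕ, N₀ ≤ N → ∀ (x : ℕ) (r : ℕ → ℝ), (∀ m ∈ Icc 1 x, |r m| ≤ B * N) →
      (energy p x r : ℝ) * N ≤ Real.log N ^ C * (x : ℝ) ^ (2 * p) → Holds ε A κ U N x r) ∧
    (∀ f : Polynomial ℤ, 1 ≤ f.natDegree → ∀ κ₀ : ℝ, κ₀ ≠ 0 →
      Sequence ε A B C κ U (fun m => κ₀ * ((f.eval (m : ℤ) : ℤ) : ℝ)) f.natDegree) ∧
    (∀ (F : Finset ℝ) (w : ℝ → ℝ) (e : ℝ), e ∈ F → (∀ y ∈ F, y ≤ e) → w e ≠ 0 → 1 < e → (∀ k : ℕ, e ≠ k) →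
      Sequence ε A B C κ U (fun m => ∑ y ∈ F, w y * (m : ℝ) ^ y) e) := by
  classical
  refine ⟨fun p => ?_, fun f hd κ₀ hκ => ?_, fun F w e heF hmax hwe he hen => ?_⟩
  · obtain ⟨B', C', N₀, h1⟩ := Pool.Agent.Q56.TF.near_gen p A B C
    obtain ⟨N₁, h2⟩ := holds_of A B' κ U (p + 1) C' (by omega) ε hε
    exact ⟨N₀ + N₁, fun N hN x r hr hE => h2 N (by omega) x _ ((h1 N (by omega) x r hr hE).order (by omega))⟩
  · exact sequence_of ((Pool.Agent.Q56.TF.base_poly f hd).dil hκ) (by exact_mod_cast hd) A B C κ U ε hε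
  · exact sequence_of (Pool.Agent.Q56.TF.base_gp F w e heF hmax hwe he hen) he.le A B C κ U ε hε

end Pool.Agent.Results.MP_484fb8_nt.EvensNearRealSequences
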