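import Pool.Agent.Q46.SL.Tools
import Pool.Agent.Q46.SL.Mord

/-!
# Goldbach representations by almost primes with a small summand: discrete logarithms and polynomial residues

The problem asks for primes `x` and `η - x` with `x` of a prescribed smaller size (in the primorial interval before `η`). For
every even `η ≤ p ^ B` we find many almost primes `x < p`, in arbitrary boxes above a certain size, such that `η - x` is almost
prime: `η` is in the next intervals, `x` in a much shorter interval.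

Let `p` be a large prime, `g` a nonzero residue and `f_1, ..., f_s` polynomials modulo `p`, linearly independent together with `1`. In
all boxes above a certain size there are many exponents `x` such that ALL of `x` and the least residues of `f_1(g ^ x)`, ...,
`f_s(g ^ x)` have the property. Here the property is: `x` and `η - x` have at most `R` prime factors, all larger than `p ^ κ`.

In addition the numbers avoid arbitrary residue classes, at most `m` classes `E q` modulo each prime `q ≤ z`, as long as there is no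
local obstruction; `m = 0` is the case without classes. The exponent `κ`, the number `R` and the constant `cc` do not depend on the
classes.

Design and proof: helper46 (modules `Pool.Agent.Q46.SV.*`, `Pool.Agent.Q46.SL.*`): the vectors of the residues in question are
equidistributed modulo all small integers with a power saving, by bounds for exponential sums; the fundamental lemma of the
sieve is applied to the vectors.
-/

set_option autoImplicit false

namespace Pool.Agent.Results.MP_484fb8_nt.LogarithmsAndPolynomials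

open Finset Polynomial
open Pool.Agent.Q46.SL hiding Almost

/-- `n` is not zero and has at most `R` prime factors (counted with multiplicity), all larger than `z` -/
def Almost (z : ℝ) (R : ℕ) (n : ℤ) : Prop :=
  n ≠ 0 ∧ n.natAbs.primeFactorsList.length ≤ R ∧ ∀ q : ℕ, q.Prime → (q : ℤ) ∣ n → z < q

/-- `x` is positive, `x` and `η - x` have at most `R` prime factors, all larger than `z`, and `x` avoids the classes `E q`, `q ≤ z` -/
def Good (η : ℤ) (z : ℝ) (R : ℕ) (E : ℕ → Finset ℕ) (x : ℤ) : Prop :=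
  0 < x ∧ Almost z R (x) ∧ Almost z R (η - x) ∧ ∀ q : ℕ, q.Prime → (q : ℝ) ≤ z → (x % q).toNat ∉ E q

/-- `E q` has at most `m` elements, and some residue `a` outside `E q` makes none of the numbers `x`, `η - x` (`a` in the place of `x`) divisible by `q` -/
def Adm (η : ℤ) (m : ℕ) (E : ℕ → Finset ℕ) : Prop :=
  ∀ q : ℕ, q.Prime → (E q).card ≤ m ∧ ∃ a < q, a ∉ E q ∧ ¬ (q : ℤ) ∣ a ∧ ¬ (q : ℤ) ∣ η - a

/-- the polynomials and the classes -/
noncomputable def sysE (η : ℤ) (m : ℕ) (E : ℕ → Finset ℕ) (hE : Adm η m E) : PE 2 m 2 where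
  f := ![X, C η - X]
  E := E
  deg := by
    rw [Fin.sum_univ_two]
    simp only [Matrix.cons_val]
    have d0 : (X : ℤ[X]).natDegree ≤ 1 := by compute_degree
    have d1 : (C η - X : ℤ[X]).natDegree ≤ 1 := by compute_degree
    omega
  adm := by
    intro q hq
    obtain ⟨h1, a, ha, haE, h2, h3⟩ := hE q hq
    refine ⟨h1, a, ha, haE, fun j => ?_⟩
    fin_cases j
    · simpa using h2
    · simpa using h3

lemma good_of {η : ℤ} {m B : ℕ} {E : ℕ → Finset ℕ} (hE : Adm η m E) {κ M : ℝ} (hM : (2 : ℝ) ≤ M)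
    (hh : |(η : ℝ)| ≤ M ^ B) {x : ℤ} (h : Near (B + 1) (sysE η m E hE) κ M x) (hx : (x : ℝ) ≤ M) :
    Good η (M ^ κ) ⌊((B + 1 : ℕ) + (2 : ℕ) + 1 : ℝ) / κ⌋₊ E x := by
  obtain ⟨h0, h12⟩ := h
  obtain ⟨h1, h2⟩ := h12 (by
    intro j
    have hB : (1 : ℝ) ≤ M ^ B := one_le_pow₀ (by linarith)
    have hBM : (2 : ℝ) * M ^ B ≤ M ^ (B + 1) := by
      rw [pow_succ]
      nlinarith
    have k0 := hh
    fin_cases j
    · refine cb_mono (cb_X) ?_
      push_cast
      norm_num
      linarith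
    · refine cb_mono (cb_sub (cb_C η) (cb_X)) ?_
      push_cast
      norm_num
      linarith) hx
  refine ⟨h0, ?_, ?_, h2⟩
  · simpa [sysE, Almost, Pool.Agent.Q46.SL.Almost] using h1 0
  · simpa [sysE, Almost, Pool.Agent.Q46.SL.Almost] using h1 1

/-- For every even `η`, `x` and `η - x` are almost primes for an exponent `x` and for the values of `s` polynomials at the power. -/
theorem result (B m : ℕ) (r s : ℕ) (hr : 1 ≤ r) (ε : ℝ) (hε : 0 < ε) (hε1 : ε ≤ 1) :
    ∃ κ : ℝ, 0 < κ ∧ ∃ cc : ℝ, 0 < cc ∧ ∃ R p₀ : ℕ, ∀ p : ℕ, p₀ ≤ p → ∀ [Fact p.Prime], ∀ η : ℤ, |(η : ℝ)| ≤ (p : ℝ) ^ B → ∀ E : ℕ → Finset ℕ, Adm η m E → ∀ (g : (ZMod p)ˣ) (f : Fin s → (ZMod p)[X]),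
      (∀ i, (f i).natDegree ≤ r) → (∀ c : Fin s → ZMod p, (∑ i, C (c i) * f i).natDegree = 0 → c = 0) →
      ∀ (A₀ N₀ : ℕ) (A N : Fin s → ℕ), A₀ + N₀ ≤ orderOf g → (∀ i, A i + N i ≤ p) →
      (p : ℝ) ^ ε ≤ N₀ → (∀ i, (p : ℝ) ^ ε ≤ N i) →
      (p : ℝ) ^ ((2 * s + 1) * r + ε) * ((orderOf g : ℕ) : ℝ) ^ (r - 1) ≤ ((N₀ : ℝ) * ∏ i, (N i : ℝ)) ^ (2 * r) →
      ∃ G : Finset ℕ, cc * ((N₀ : ℝ) * (∏ i, (N i : ℝ)) / (p : ℝ) ^ s) / Real.log p ^ ((s + 1) * (m + 2)) ≤ G.card ∧
        ∀ x ∈ G, (A₀ ≤ x ∧ x < A₀ + N₀) ∧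
          (∀ i, A i ≤ ((f i).eval ((g : ZMod p) ^ x)).val ∧ ((f i).eval ((g : ZMod p) ^ x)).val < A i + N i) ∧
          Good η ((p : ℝ) ^ κ) R E x ∧ ∀ i, Good η ((p : ℝ) ^ κ) R E ((f i).eval ((g : ZMod p) ^ x)).val := by
  obtain ⟨κ, hκ, cc, hcc, p₀, h⟩ := Pool.Agent.Q46.SL.logs (Near (B + 1) : PE 2 m 2 → ℝ → ℝ → ℤ → Prop)
    (lg (m + 2)) (fun r _ => csN 2 m 2 (B + 1) r) r s hr ε hε hε1
  refine ⟨κ, hκ, cc, hcc, ⌊((B + 1 : ℕ) + (2 : ℕ) + 1 : ℝ) / κ⌋₊, max 2 p₀, ?_⟩
  intro p hp _ η t0 E hE g f hf hind A₀ N₀ A N hA0 hA hN0 hN hP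
  have hpr : (2 : ℝ) ≤ p := by exact_mod_cast (le_max_left _ _).trans hp
  have hord := ord_le' g
  obtain ⟨G, hG, hG2⟩ := h p ((le_max_right _ _).trans hp) (sysE η m E hE) g f hf hind A₀ N₀ A N hA0 hA hN0 hN hP
  refine ⟨G, le_trans (cnt le_rfl (div_nonneg (mul_nonneg (Nat.cast_nonneg _)
    (prod_nonneg fun _ _ => Nat.cast_nonneg _)) (by positivity)) (log0 p) _ _) hG, ?_⟩
  intro x hx
  obtain ⟨a1, a2, a3, a4⟩ := hG2 x hx
  exact ⟨a1, a2, good_of hE hpr t0 a3 (by exact_mod_cast (by omega : x ≤ p)), fun i =>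
    good_of hE hpr t0 (a4 i) (by exact_mod_cast (ZMod.val_lt _).le)⟩

end Pool.Agent.Results.MP_484fb8_nt.LogarithmsAndPolynomials
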